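import Pool.Agent.H95.FA.Stm

/-!
# Project FA (helper95): the branches of a curve (module `S_CUR`)
-/

set_option autoImplicit false

namespace Pool.Agent.H1.FA

open Polynomial Filter Topology
open Pool.Agent.Q270.PX (An RA rt RA_closed puiseux mem_RA)

/-- `t ^ d P (x, (t ^ 2 - c) / (κ t))` as a polynomial in `x` with coefficients in `F[t]` -/
noncomputable def QQ {F : Type*} [Field F] (P : MvPolynomial (Fin 2) ℤ) (κ c : F) : F[X][X] :=
  ∑ a ∈ P.support, C (C ((P.coeff a : ℤ) : F)) * X ^ (a 0) *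
    C ((C κ⁻¹ * (X ^ 2 - C c)) ^ (a 1) * X ^ (P.degreeOf 1 - a 1))

lemma map_QQ {F L : Type*} [Field F] [Field L] (f : F →+* L) (P : MvPolynomial (Fin 2) ℤ) (κ c : F) :
    (QQ P κ c).map (mapRingHom f) = QQ P (f κ) (f c) := by
  unfold QQ
  rw [Polynomial.map_sum]
  refine Finset.sum_congr rfl fun a _ => ?_
  simp [Polynomial.map_mul, Polynomial.map_pow]

lemma eval_QQ (P : MvPolynomial (Fin 2) ℤ) (κ c t x : ℝ) (ht : t ≠ 0) :
    (QQ P κ c).evalEval t x = t ^ P.degreeOf 1 *
      MvPolynomial.eval ![x, κ⁻¹ * (t - c * t⁻¹)] (MvPolynomial.map (Int.castRingHom ℝ) P) := by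
  rw [MvPolynomial.eval_map, MvPolynomial.eval₂_eq', Finset.mul_sum]
  unfold QQ
  rw [← coe_evalEvalRingHom, map_sum]
  refine Finset.sum_congr rfl fun a ha => ?_
  have h1 : a 1 ≤ P.degreeOf 1 := MvPolynomial.monomial_le_degreeOf 1 ha
  have h2 : t ^ 2 - c = t * (t - c * t⁻¹) := by
    field_simp
  have h3 : t ^ P.degreeOf 1 = t ^ a 1 * t ^ (P.degreeOf 1 - a 1) := by
    rw [← pow_add]
    congr 1
    omega
  rw [h3]
  simp only [map_mul, map_pow, coe_evalEvalRingHom, evalEval_C, evalEval_X, Fin.prod_univ_two,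
    eval_C, eval_X, eval_sub, eval_pow, Matrix.cons_val_zero, Matrix.cons_val_one,
    eq_intCast, h2]
  generalize t - c * t⁻¹ = w
  ring

theorem t_CUR : Pool.Agent.H95.FA.S_CUR := by
  intro P hP κ c hκ hc hκ0
  have hev := eval_QQ P κ c
  have hPP0 : QQ P κ c ≠ 0 := by
    intro h0
    apply hP
    have hinj : Function.Injective (MvPolynomial.map (σ := Fin 2) (Int.castRingHom ℝ)) :=
      MvPolynomial.map_injective _ (RingHom.injective_int _)
    apply hinj
    rw [map_zero]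
    -- infinitely many values
    set f : ℝ → ℝ := fun t => κ⁻¹ * (t - c * t⁻¹) with hf
    have hfi : Set.InjOn f (Set.Ioi (1 + |c|)) := by
      intro t ht t' ht' htt
      have ha : 0 ≤ |c| := abs_nonneg c
      have ht1 : 1 + |c| < t := ht
      have ht2 : 1 + |c| < t' := ht'
      have ht0 : 0 < t := by linarith
      have ht0' : 0 < t' := by linarith
      have h1 : t - c * t⁻¹ = t' - c * t'⁻¹ := mul_left_cancel₀ (inv_ne_zero hκ0) htt
      have h2 : (t - t') * (t * t' + c) = 0 := by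
        field_simp at h1
        linarith
      rcases mul_eq_zero.1 h2 with h3 | h3
      · linarith
      · exfalso
        have h4 := neg_abs_le c
        nlinarith
    refine MvPolynomial.funext_set ![Set.univ, f '' Set.Ioi (1 + |c|)] (fun i => ?_) fun v hv => ?_
    · fin_cases i
      · exact Set.infinite_univ
      · exact (Set.Ioi_infinite _).image hfi
    · have hv1 : v 1 ∈ f '' Set.Ioi (1 + |c|) := hv 1 (Set.mem_univ 1)
      obtain ⟨t, ht, htv⟩ := hv1
      have ht1 : 1 + |c| < t := ht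
      have ht0 : t ≠ 0 := by
        have ha : 0 ≤ |c| := abs_nonneg c
        intro h
        linarith
      have h1 := hev t (v 0) ht0
      rw [h0] at h1
      have h2 : ![v 0, κ⁻¹ * (t - c * t⁻¹)] = v := by
        funext i
        fin_cases i
        · rfl
        · exact htv
      rw [h2] at h1
      have h3 : t ^ P.degreeOf 1 * MvPolynomial.eval v (MvPolynomial.map (Int.castRingHom ℝ) P) = 0 := by
        rw [← h1]
        simp [evalEval]
      rw [map_zero]
      exact (mul_eq_zero.1 h3).resolve_left (pow_ne_zero _ ht0)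
  have hPPK : ∀ i j, ((QQ P κ c).coeff i).coeff j ∈ RA := by
    intro i j
    have h1 := map_QQ RA.subtype P ⟨κ, (mem_RA κ).2 hκ⟩ ⟨c, (mem_RA c).2 hc⟩
    have h2 : QQ P κ c = (QQ P (⟨κ, (mem_RA κ).2 hκ⟩ : RA) ⟨c, (mem_RA c).2 hc⟩).map
      (mapRingHom RA.subtype) := h1.symm
    rw [h2, coeff_map, coe_mapRingHom, coeff_map]
    exact Subtype.property _
  obtain ⟨D, q, hq, S, hS, hSan, hroots⟩ := puiseux RA_closed _ hPP0 hPPK
  refine ⟨D, q, hq, S, hS, hSan, ?_⟩
  obtain ⟨T₀, hT₀⟩ := eventually_atTop.1 (hroots.and (eventually_gt_atTop 0))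
  refine ⟨T₀, fun t ht x M hM hx => ?_⟩
  obtain ⟨h1, h2⟩ := hT₀ t ht
  apply (h1 x).1
  rw [hev t x h2.ne']
  have h3 : κ⁻¹ * (t - c * t⁻¹) = (M : ℝ) := by
    rw [← hM, inv_mul_cancel_left₀ hκ0]
  rw [h3]
  have h4 : MvPolynomial.eval ![(x : ℝ), (M : ℝ)] (MvPolynomial.map (Int.castRingHom ℝ) P) =
      ((MvPolynomial.eval ![x, M] P : ℤ) : ℝ) := by
    rw [MvPolynomial.eval_map]
    have h5 := MvPolynomial.eval₂_comp_left (Int.castRingHom ℝ) (RingHom.id ℤ) ![x, M] P
    have h6 : (Int.castRingHom ℝ) ∘ ![x, M] = ![(x : ℝ), (M : ℝ)] := by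
      funext i
      fin_cases i <;> rfl
    rw [h6, RingHom.comp_id] at h5
    rw [← h5]
    rfl
  rw [h4, hx]
  simp

end Pool.Agent.H1.FA
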