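import Pool.Agent.H95.FA.Stm

/-!
# The size of admissible Fibonacci and Lucas numbers (module `S_SIZ`)
-/

set_option autoImplicit false

namespace Pool.Agent.H1.FA

open Real (goldenRatio goldenConj)
open Pool.Agent.H95.FB

lemma phi_gt : (3 : ℝ) / 2 < goldenRatio := by
  have h1 : (2 : ℝ) < √5 := by
    rw [Real.lt_sqrt (by norm_num)]
    norm_num
  unfold Real.goldenRatio
  linarith

lemma phi_sq : (2 : ℝ) ≤ goldenRatio ^ 2 := by
  have h := phi_gt
  have h2 : goldenRatio ^ 2 = goldenRatio + 1 := Real.goldenRatio_sq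
  rw [h2]
  linarith

lemma one_le_pow_phi (n : ℕ) : (1 : ℝ) ≤ goldenRatio ^ n :=
  one_le_pow₀ (by have := phi_gt; linarith)

theorem t_SIZ : Pool.Agent.H95.FA.S_SIZ := by
  intro n M h
  have hn : 3 < n := h.lt
  have hpos : (0 : ℝ) < goldenRatio ^ n := by have := one_le_pow_phi n; linarith
  have hinv : (goldenRatio ^ n)⁻¹ ≤ 1 := inv_le_one_of_one_le₀ (one_le_pow_phi n)
  have hinv0 : 0 < (goldenRatio ^ n)⁻¹ := inv_pos.2 hpos
  have hp := one_le_pow_phi n
  have hbig : 2 * goldenRatio ^ n ≤ goldenRatio ^ (n + 2) := by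
    rw [pow_add, mul_comm]
    exact mul_le_mul_of_nonneg_left phi_sq hpos.le
  have hs5 : (1 : ℝ) ≤ √5 := by
    rw [Real.one_le_sqrt]
    norm_num
  -- the three identities
  have key : ((√5 * M = goldenRatio ^ n - (-1) * (goldenRatio ^ n)⁻¹) ∨
      (1 * (M : ℝ) = goldenRatio ^ n - 1 * (goldenRatio ^ n)⁻¹) ∨
      (1 * (M : ℝ) = goldenRatio ^ n - (-1) * (goldenRatio ^ n)⁻¹)) := by
    rcases h with ⟨h1, h2, h3⟩ | ⟨j, h1, h2, h3⟩
    · have hodd : Odd n := by
        rw [← Nat.not_even_iff_odd]
        intro he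
        have := h2 2 Nat.prime_two he.two_dvd
        omega
      rcases h3 with rfl | rfl
      · left
        have h4 := fib_binet n
        rw [conj_pow, hodd.neg_one_pow] at h4
        exact h4
      · right; left
        have h4 := lucas_binet n
        rw [conj_pow, hodd.neg_one_pow] at h4
        rw [one_mul, h4]
        ring
    · right; right
      have heven : Even n := by
        rw [h2]
        exact (Nat.even_pow.2 ⟨even_two, by omega⟩)
      have h4 := lucas_binet n
      rw [conj_pow, heven.neg_one_pow] at h4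
      rw [h3, one_mul, h4]
      ring
  refine ⟨key, ?_⟩
  have hM0 : (0 : ℝ) ≤ (M : ℝ) := Nat.cast_nonneg M
  rcases key with h4 | h4 | h4
  · have h5 : (M : ℝ) ≤ √5 * M := by nlinarith
    linarith
  · linarith
  · linarith

end Pool.Agent.H1.FA
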